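import Mathlib

set_option autoImplicit false

/-!
# A spectrally arbitrary sign pattern with a superpattern that is not spectrally arbitrary

`P` is the direct sum `M₄ ⊕ T₂`.  Every real monic sextic is a product of three real monic
quadratics; the pattern `M₄` realizes the product of two real monic quadratics except in certain
degenerate situations, and for every triple of quadratics some pair of them is not degenerate.
So `P` is spectrally arbitrary.  The superpattern `Q` has one more entry, a minus sign in position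
`(3,1)`.  If the `4 × 4` block of a realization of `Q` were nilpotent, then its entries would
satisfy `c² f z k + u² (h + a z) = 0` for positive numbers `a, c, f, h, k, z` and a real number `u`.
So `Q` does not realize `X ^ 6`.
-/

namespace Pool.Agent.Results.MP_557f7f_co.SpectralSuperpattern

open Polynomial Matrix

/-- `A` is a realization of the sign pattern `S`. -/
def Realizes {n : ℕ} (A : Matrix (Fin n) (Fin n) ℝ) (S : Matrix (Fin n) (Fin n) SignType) : Prop :=
  ∀ i j, SignType.sign (A i j) = S i j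

/-- The sign pattern `S` is spectrally arbitrary: every monic real polynomial of degree `n` is the
characteristic polynomial of a realization of `S`. -/
def SpectrallyArbitrary {n : ℕ} (S : Matrix (Fin n) (Fin n) SignType) : Prop :=
  ∀ p : ℝ[X], p.Monic → p.natDegree = n →
    ∃ A : Matrix (Fin n) (Fin n) ℝ, Realizes A S ∧ A.charpoly = p

/-- `S'` is a superpattern of `S`: it agrees with `S` at every nonzero entry of `S`. -/
def IsSuperpattern {n : ℕ} (S' S : Matrix (Fin n) (Fin n) SignType) : Prop :=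
  ∀ i j, S i j ≠ 0 → S' i j = S i j

/-- The pattern `M₄ ⊕ T₂`. -/
def P : Matrix (Fin 6) (Fin 6) SignType :=
  !![1, 1, -1, 0, 0, 0;
     -1, -1, 1, 0, 0, 0;
     0, 0, 0, -1, 0, 0;
     1, 1, 0, 0, 0, 0;
     0, 0, 0, 0, 1, 1;
     0, 0, 0, 0, -1, -1]

/-- The superpattern. -/
def Q : Matrix (Fin 6) (Fin 6) SignType :=
  !![1, 1, -1, 0, 0, 0;
     -1, -1, 1, 0, 0, 0;
     -1, 0, 0, -1, 0, 0;
     1, 1, 0, 0, 0, 0;
     0, 0, 0, 0, 1, 1;
     0, 0, 0, 0, -1, -1]

/-- The pattern `M₄`. -/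
def M4 : Matrix (Fin 4) (Fin 4) SignType :=
  !![1, 1, -1, 0;
     -1, -1, 1, 0;
     0, 0, 0, -1;
     1, 1, 0, 0]

/-- The pattern `T₂`. -/
def T2 : Matrix (Fin 2) (Fin 2) SignType := !![1, 1; -1, -1]

/-! ### Factorization of real polynomials into quadratics -/

/-- A real monic polynomial of degree `n + 2` has a real monic quadratic factor. -/
theorem exists_quadratic (n : ℕ) (p : ℝ[X]) (hp : p.Monic) (hd : p.natDegree = n + 2) :
    ∃ (t m : ℝ) (q : ℝ[X]), q.Monic ∧ q.natDegree = n ∧ p = (X ^ 2 - C t * X + C m) * q := by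
  have quad_monic : ∀ t m : ℝ, (X ^ 2 - C t * X + C m : ℝ[X]).Monic ∧
      (X ^ 2 - C t * X + C m : ℝ[X]).natDegree = 2 := by
    intro t m
    have : (X ^ 2 - C t * X + C m : ℝ[X]) = X ^ 2 + (C (-t) * X + C m) := by
      rw [C_neg]; ring
    rw [this]
    have hlt : (C (-t) * X + C m : ℝ[X]).degree < (X ^ 2 : ℝ[X]).degree := by
      rw [degree_X_pow]
      refine lt_of_le_of_lt (degree_linear_le) ?_
      norm_num
    constructor
    · exact (monic_X_pow 2).add_of_left hlt
    · rw [natDegree_add_eq_left_of_degree_lt hlt, natDegree_X_pow]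
  have fin : ∀ (t m : ℝ), (X ^ 2 - C t * X + C m : ℝ[X]) ∣ p →
      ∃ (t m : ℝ) (q : ℝ[X]), q.Monic ∧ q.natDegree = n ∧ p = (X ^ 2 - C t * X + C m) * q := by
    rintro t m ⟨q, hq⟩
    obtain ⟨h1, h2⟩ := quad_monic t m
    have hqm : q.Monic := by
      rw [hq] at hp
      exact h1.of_mul_monic_left hp
    refine ⟨t, m, q, hqm, ?_, hq⟩
    have := h1.natDegree_mul hqm
    rw [← hq, hd, h2] at this
    omega
  obtain ⟨z, hz⟩ := IsAlgClosed.exists_aeval_eq_zero ℂ p (by
    have := hp.ne_zero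
    rw [degree_eq_natDegree this, hd]
    exact_mod_cast (by omega : n + 2 ≠ 0))
  by_cases hzi : z.im = 0
  · have hz' : z = ((z.re : ℝ) : ℂ) := by
      apply Complex.ext
      · simp
      · simp [hzi]
    have hr : p.IsRoot z.re := by
      rw [hz', ← Complex.coe_algebraMap, aeval_algebraMap_apply] at hz
      simpa using hz
    obtain ⟨p1, hp1⟩ := dvd_iff_isRoot.2 hr
    have hp1m : p1.Monic := by
      rw [hp1] at hp
      exact (monic_X_sub_C _).of_mul_monic_left hp
    have hd1 : p1.natDegree = n + 1 := by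
      have := (monic_X_sub_C z.re).natDegree_mul hp1m
      rw [← hp1, hd, natDegree_X_sub_C] at this
      omega
    obtain ⟨w, hw⟩ := IsAlgClosed.exists_aeval_eq_zero ℂ p1 (by
      have := hp1m.ne_zero
      rw [degree_eq_natDegree this, hd1]
      exact_mod_cast (by omega : n + 1 ≠ 0))
    by_cases hwi : w.im = 0
    · have hw' : w = ((w.re : ℝ) : ℂ) := by
        apply Complex.ext
        · simp
        · simp [hwi]
      have hr1 : p1.IsRoot w.re := by
        rw [hw', ← Complex.coe_algebraMap, aeval_algebraMap_apply] at hw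
        simpa using hw
      obtain ⟨p2, hp2⟩ := dvd_iff_isRoot.2 hr1
      refine fin (z.re + w.re) (z.re * w.re) ⟨p2, ?_⟩
      rw [hp1, hp2, C_add, C_mul]
      ring
    · have h2 := quadratic_dvd_of_aeval_eq_zero_im_ne_zero p1 hw hwi
      exact fin _ _ (h2.trans ⟨X - C z.re, by rw [hp1]; ring⟩)
  · exact fin _ _ (quadratic_dvd_of_aeval_eq_zero_im_ne_zero p hz hzi)

/-- A real monic sextic is a product of three real monic quadratics. -/
theorem exists_three (p : ℝ[X]) (hp : p.Monic) (hd : p.natDegree = 6) :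
    ∃ t n : Fin 3 → ℝ, p = (X ^ 2 - C (t 0) * X + C (n 0)) * (X ^ 2 - C (t 1) * X + C (n 1)) *
      (X ^ 2 - C (t 2) * X + C (n 2)) := by
  obtain ⟨t1, n1, q1, h1, h2, h3⟩ := exists_quadratic 4 p hp hd
  obtain ⟨t2, n2, q2, h4, h5, h6⟩ := exists_quadratic 2 q1 h1 h2
  obtain ⟨t3, n3, q3, h7, h8, h9⟩ := exists_quadratic 0 q2 h4 h5
  have h10 : q3 = 1 := h7.natDegree_eq_zero.1 h8
  refine ⟨![t1, t2, t3], ![n1, n2, n3], ?_⟩
  rw [h3, h6, h9, h10]
  simp
  ring


/-! ### Realizations of `T₂` and `M₄` -/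

theorem charpoly2 (a b c d : ℝ) :
    (!![a, b; c, d] : Matrix (Fin 2) (Fin 2) ℝ).charpoly =
      X ^ 2 - C (a + d) * X + C (a * d - b * c) := by
  have h1 : charmatrix (!![a, b; c, d] : Matrix (Fin 2) (Fin 2) ℝ) =
      !![X - C a, -C b; -C c, X - C d] := by
    ext i j : 2
    fin_cases i <;> fin_cases j <;> simp
  rw [Matrix.charpoly, h1, Matrix.det_fin_two]
  simp
  ring

theorem realize_T2 (t m : ℝ) :
    ∃ A : Matrix (Fin 2) (Fin 2) ℝ, Realizes A T2 ∧ A.charpoly = X ^ 2 - C t * X + C m := by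
  set a : ℝ := |t| + |m| + 1 with ha
  have n1 := abs_nonneg t
  have n2 := abs_nonneg m
  have l1 := le_abs_self t
  have l1' := neg_abs_le t
  have l2 := neg_abs_le m
  set d : ℝ := a - t with hd
  have hd1 : 1 + |m| ≤ d := by rw [hd, ha]; linarith
  have ha1 : 1 + |m| ≤ a := by rw [ha]; linarith
  have had : (1 + |m|) * (1 + |m|) ≤ a * d :=
    mul_le_mul ha1 hd1 (by linarith) (by linarith)
  have hc : 0 < m + a * d := by nlinarith
  refine ⟨!![a, 1; -(m + a * d), -d], ?_, ?_⟩
  · have ha0 : 0 < a := by linarith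
    have hd0 : 0 < d := by linarith
    intro i j
    fin_cases i <;> fin_cases j
    · exact sign_pos ha0
    · exact sign_pos one_pos
    · exact sign_neg (neg_neg_of_pos hc)
    · exact sign_neg (neg_neg_of_pos hd0)
  · rw [charpoly2]
    have h1 : a + -d = t := by rw [hd]; ring
    have h2 : a * -d - 1 * -(m + a * d) = m := by ring
    rw [h1, h2]

theorem charpoly4 (a b c d e f z g h k : ℝ) :
    (!![a, b, c, 0; d, e, f, 0; z, 0, 0, g; h, k, 0, 0] : Matrix (Fin 4) (Fin 4) ℝ).charpoly =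
      X ^ 4 - C (a + e) * X ^ 3 + C (a * e - b * d - c * z) * X ^ 2 -
        C (c * g * h + f * g * k + b * f * z - c * e * z) * X +
        C (g * (a * f * k + c * e * h - b * f * h - c * d * k)) := by
  have h1 : charmatrix (!![a, b, c, 0; d, e, f, 0; z, 0, 0, g; h, k, 0, 0] :
      Matrix (Fin 4) (Fin 4) ℝ) =
      !![X - C a, -C b, -C c, 0; -C d, X - C e, -C f, 0; -C z, 0, X, -C g; -C h, -C k, 0, X] := by
    ext i j : 2
    fin_cases i <;> fin_cases j <;> simp
  rw [Matrix.charpoly, h1]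
  simp [Matrix.det_succ_row_zero, Fin.sum_univ_succ, Fin.succAbove]
  ring

theorem realize_core (a e p q m S : ℝ) (ha : 0 < a) (he : 0 < e) (hp : 0 < p) (hq : 0 < q)
    (hm : 0 < m) (hS : 0 < S) (hD : 4 * p * q * m ≤ S ^ 2) :
    ∃ A : Matrix (Fin 4) (Fin 4) ℝ, Realizes A M4 ∧
      A.charpoly = X ^ 4 - C (a - e) * X ^ 3 + C (m - a * e) * X ^ 2 - C (p - q) * X +
        C (S - p * e - q * a) := by
  set r : ℝ := Real.sqrt (S ^ 2 - 4 * p * q * m) with hr
  have hr0 : 0 ≤ r := Real.sqrt_nonneg _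
  have hr2 : r ^ 2 = S ^ 2 - 4 * p * q * m := Real.sq_sqrt (by linarith)
  set y : ℝ := (S + r) / 2 with hy
  have hy0 : 0 < y := by rw [hy]; linarith
  have hyy : y * y = S * y - p * q * m := by
    rw [hy]
    nlinarith
  have hyS : y + p * q * m / y = S := by
    have h1 : p * q * m / y = S - y := by
      rw [div_eq_iff hy0.ne']
      linarith
    rw [h1]
    ring
  refine ⟨!![a, 1, -p, 0; -m, -e, y, 0; 0, 0, 0, -1; 1, q / y, 0, 0], ?_, ?_⟩
  · have hqy : 0 < q / y := div_pos hq hy0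
    intro i j
    fin_cases i <;> fin_cases j
    · exact sign_pos ha
    · exact sign_pos one_pos
    · exact sign_neg (neg_neg_of_pos hp)
    · exact sign_zero
    · exact sign_neg (neg_neg_of_pos hm)
    · exact sign_neg (neg_neg_of_pos he)
    · exact sign_pos hy0
    · exact sign_zero
    · exact sign_zero
    · exact sign_zero
    · exact sign_zero
    · exact sign_neg (neg_neg_of_pos one_pos)
    · exact sign_pos one_pos
    · exact sign_pos hqy
    · exact sign_zero
    · exact sign_zero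
  · rw [charpoly4]
    have e1 : a + -e = a - e := by ring
    have e2 : a * -e - 1 * -m - -p * 0 = m - a * e := by ring
    have e3 : -p * -1 * 1 + y * -1 * (q / y) + 1 * y * 0 - -p * -e * 0 = p - q := by
      have : y * (q / y) = q := by field_simp
      linear_combination -this
    have e4 : -1 * (a * y * (q / y) + -p * -e * 1 - 1 * y * 1 - -p * -m * (q / y)) =
        S - p * e - q * a := by
      have h1 : y * (q / y) = q := by field_simp
      have h2 : p * q * m / y = p * m * (q / y) := by ring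
      rw [h2] at hyS
      linear_combination (-a) * h1 + hyS
    rw [e1, e2, e3, e4]

theorem quad_large (A B D : ℝ) (hA : 0 < A) : ∃ N : ℝ, ∀ x, N ≤ x → 0 ≤ A * x ^ 2 + B * x + D := by
  refine ⟨(|B| + |D|) / A + 1, fun x hx => ?_⟩
  have n1 := abs_nonneg B
  have n2 := abs_nonneg D
  have h0 : 0 ≤ (|B| + |D|) / A := div_nonneg (by linarith) hA.le
  have h1 : |B| + |D| ≤ A * x := by
    have : A * ((|B| + |D|) / A) = |B| + |D| := by field_simp
    nlinarith
  have h2 : 1 ≤ x := by linarith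
  have h3 : (|B| + |D|) * x ≤ A * x * x := mul_le_mul_of_nonneg_right h1 (by linarith)
  have h4 : |D| ≤ |D| * x := by nlinarith
  have h5 : -(|B| * x) ≤ B * x := by nlinarith [neg_abs_le B]
  have h6 := neg_abs_le D
  nlinarith

theorem realize_M4 (E1 E2 E3 E4 : ℝ)
    (h : E3 ≠ 0 ∨ 0 < E4 ∨ 4 * E2 < E1 ^ 2 ∨ (E4 = 0 ∧ 4 * E2 = E1 ^ 2)) :
    ∃ A : Matrix (Fin 4) (Fin 4) ℝ, Realizes A M4 ∧
      A.charpoly = X ^ 4 - C E1 * X ^ 3 + C E2 * X ^ 2 - C E3 * X + C E4 := by
  suffices main : ∃ e q : ℝ, 0 < e ∧ 0 < q ∧ 0 < e + E1 ∧ 0 < q + E3 ∧ 0 < E2 + (e + E1) * e ∧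
      0 < E4 + (q + E3) * e + q * (e + E1) ∧
      4 * (q + E3) * q * (E2 + (e + E1) * e) ≤ (E4 + (q + E3) * e + q * (e + E1)) ^ 2 by
    obtain ⟨e, q, h1, h2, h3, h4, h5, h6, h7⟩ := main
    obtain ⟨A, hA, hA'⟩ := realize_core (e + E1) e (q + E3) q _ _ h3 h1 h4 h2 h5 h6 h7
    refine ⟨A, hA, ?_⟩
    rw [hA']
    have e1 : e + E1 - e = E1 := by ring
    have e2 : E2 + (e + E1) * e - (e + E1) * e = E2 := by ring
    have e3 : q + E3 - q = E3 := by ring
    have e4 : E4 + (q + E3) * e + q * (e + E1) - (q + E3) * e - q * (e + E1) = E4 := by ring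
    rw [e1, e2, e3, e4]
  by_cases h3 : E3 = 0
  · subst h3
    rcases h with h | h | h | ⟨h, h'⟩
    · exact absurd rfl h
    · obtain ⟨N1, hN1⟩ := quad_large 1 E1 (E2 - 1) one_pos
      set e : ℝ := max N1 (|E1| + |E1 ^ 2 - 4 * E2| / E4 + 1) with he
      have n1 := abs_nonneg E1
      have n2 : 0 ≤ |E1 ^ 2 - 4 * E2| / E4 := div_nonneg (abs_nonneg _) h.le
      have l1 := neg_abs_le E1
      have g1 : N1 ≤ e := le_max_left _ _
      have g2 : |E1| + |E1 ^ 2 - 4 * E2| / E4 + 1 ≤ e := le_max_right _ _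
      have g3 := hN1 e g1
      have g4 : |E1 ^ 2 - 4 * E2| ≤ E4 * (2 * e + E1) := by
        have : E4 * (|E1 ^ 2 - 4 * E2| / E4) = |E1 ^ 2 - 4 * E2| := by field_simp
        nlinarith
      have g5 := neg_abs_le (E1 ^ 2 - 4 * E2)
      have g6 : 0 ≤ |E1 ^ 2 - 4 * E2| := abs_nonneg _
      refine ⟨e, 1, by linarith, one_pos, by linarith, by norm_num, by nlinarith, by nlinarith, ?_⟩
      have : (E4 + (1 + 0) * e + 1 * (e + E1)) ^ 2 - 4 * (1 + 0) * 1 * (E2 + (e + E1) * e) =
          (E1 ^ 2 - 4 * E2) + 2 * (E4 * (2 * e + E1)) + E4 ^ 2 := by ring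
      nlinarith [sq_nonneg E4]
    · set e : ℝ := |E1| + |E2| + 1 with he
      have n1 := abs_nonneg E1
      have n2 := abs_nonneg E2
      have l1 := neg_abs_le E1
      have l2 := neg_abs_le E2
      have g1 : 1 + |E2| ≤ e + E1 := by rw [he]; linarith
      have g2 : 1 + |E2| ≤ e := by rw [he]; linarith
      have g3 : (1 + |E2|) * (1 + |E2|) ≤ (e + E1) * e :=
        mul_le_mul g1 g2 (by linarith) (by linarith)
      obtain ⟨N, hN⟩ := quad_large (E1 ^ 2 - 4 * E2) (2 * E4 * (2 * e + E1)) (E4 ^ 2) (by linarith)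
      set q : ℝ := max N (|E4| + 1) with hq
      have n3 := abs_nonneg E4
      have l3 := neg_abs_le E4
      have g4 : N ≤ q := le_max_left _ _
      have g5 : |E4| + 1 ≤ q := le_max_right _ _
      have g6 := hN q g4
      have g7 : 1 ≤ e + (e + E1) := by linarith
      have g8 : q ≤ q * (e + (e + E1)) := by nlinarith
      refine ⟨e, q, by linarith, by linarith, by linarith, by linarith, by nlinarith,
        by nlinarith, ?_⟩
      have : (E4 + (q + 0) * e + q * (e + E1)) ^ 2 - 4 * (q + 0) * q * (E2 + (e + E1) * e) =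
          (E1 ^ 2 - 4 * E2) * q ^ 2 + 2 * E4 * (2 * e + E1) * q + E4 ^ 2 := by ring
      linarith
    · subst h
      set e : ℝ := |E1| + |E2| + 1 with he
      have n1 := abs_nonneg E1
      have n2 := abs_nonneg E2
      have l1 := neg_abs_le E1
      have l2 := neg_abs_le E2
      have g1 : 1 + |E2| ≤ e + E1 := by rw [he]; linarith
      have g2 : 1 + |E2| ≤ e := by rw [he]; linarith
      have g3 : (1 + |E2|) * (1 + |E2|) ≤ (e + E1) * e :=
        mul_le_mul g1 g2 (by linarith) (by linarith)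
      refine ⟨e, 1, by linarith, one_pos, by linarith, by norm_num, by nlinarith,
        by nlinarith, ?_⟩
      have : (0 + (1 + 0) * e + 1 * (e + E1)) ^ 2 - 4 * (1 + 0) * 1 * (E2 + (e + E1) * e) =
          E1 ^ 2 - 4 * E2 := by ring
      linarith
  · set q : ℝ := |E3| + 1 with hq
    have n3 := abs_nonneg E3
    have l3 := neg_abs_le E3
    have hq1 : 1 ≤ q := by rw [hq]; linarith
    have hp1 : 1 ≤ q + E3 := by rw [hq]; linarith
    have hE3 : 0 < E3 ^ 2 := by positivity
    obtain ⟨N1, hN1⟩ := quad_large (E3 ^ 2) (-2 * E3 * E1 * q + 2 * E4 * (2 * q + E3))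
      (E1 ^ 2 * q ^ 2 + 2 * E4 * E1 * q + E4 ^ 2 - 4 * q * (q + E3) * E2) hE3
    obtain ⟨N2, hN2⟩ := quad_large 1 E1 (E2 - 1) one_pos
    set e : ℝ := max (max N1 N2) (|E4| + q * |E1| + |E1| + 1) with he
    have g1 : N1 ≤ e := (le_max_left _ _).trans (le_max_left _ _)
    have g2 : N2 ≤ e := (le_max_right _ _).trans (le_max_left _ _)
    have g3 : |E4| + q * |E1| + |E1| + 1 ≤ e := le_max_right _ _
    have g4 := hN1 e g1
    have g5 := hN2 e g2
    have n1 := abs_nonneg E1
    have n4 := abs_nonneg E4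
    have l1 := neg_abs_le E1
    have l4 := neg_abs_le E4
    have n5 : 0 ≤ q * |E1| := by positivity
    have l5 : -(q * |E1|) ≤ q * E1 := by nlinarith
    have g6 : e ≤ (q + E3) * e := by nlinarith
    have g7 : 0 ≤ q * e := by nlinarith
    refine ⟨e, q, by linarith, by linarith, by linarith, by linarith, by nlinarith,
      by nlinarith, ?_⟩
    have : (E4 + (q + E3) * e + q * (e + E1)) ^ 2 - 4 * (q + E3) * q * (E2 + (e + E1) * e) =
        E3 ^ 2 * e ^ 2 + (-2 * E3 * E1 * q + 2 * E4 * (2 * q + E3)) * e +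
          (E1 ^ 2 * q ^ 2 + 2 * E4 * E1 * q + E4 ^ 2 - 4 * q * (q + E3) * E2) := by ring
    linarith

/-! ### `P` is spectrally arbitrary -/

/-- The product of `X² - t X + n` and `X² - t' X + n'` satisfies the condition of `realize_M4`. -/
def Good (t n t' n' : ℝ) : Prop :=
  t * n' + t' * n ≠ 0 ∨ 0 < n * n' ∨ 4 * (n + n' + t * t') < (t + t') ^ 2 ∨
    (n * n' = 0 ∧ 4 * (n + n' + t * t') = (t + t') ^ 2)

theorem Good.symm {t n t' n' : ℝ} (h : Good t n t' n') : Good t' n' t n := by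
  unfold Good at *
  rcases h with h | h | h | ⟨h, h'⟩
  · left; intro h'; apply h; linarith
  · right; left; linarith
  · right; right; left; linarith
  · right; right; right; constructor <;> linarith

theorem good_of_zero {t t' t'' n' n'' : ℝ} : Good t 0 t' n' ∨ Good t 0 t'' n'' ∨
    Good t' n' t'' n'' := by
  by_contra hcon
  push Not at hcon
  obtain ⟨h1, h2, h3⟩ := hcon
  have key : ∀ {s s' m : ℝ}, ¬ Good s 0 s' m → 0 < m := by
    intro s s' m h
    unfold Good at h
    push Not at h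
    obtain ⟨-, -, h4, h5⟩ := h
    have h6 := h5 (by ring)
    by_contra h7
    apply h6
    have h8 : 4 * m ≤ 0 := by linarith
    have h9 : 4 * (0 + m + s * s') - (s + s') ^ 2 = 4 * m - (s - s') ^ 2 := by ring
    have h10 := sq_nonneg (s - s')
    linarith
  have h4 := key h1
  have h5 := key h2
  exact h3 (Or.inr (Or.inl (mul_pos h4 h5)))

theorem good_pair (t n : Fin 3 → ℝ) :
    Good (t 0) (n 0) (t 1) (n 1) ∨ Good (t 0) (n 0) (t 2) (n 2) ∨
      Good (t 1) (n 1) (t 2) (n 2) := by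
  by_cases h01 : 0 < n 0 * n 1
  · exact Or.inl (Or.inr (Or.inl h01))
  by_cases h02 : 0 < n 0 * n 2
  · exact Or.inr (Or.inl (Or.inr (Or.inl h02)))
  by_cases h12 : 0 < n 1 * n 2
  · exact Or.inr (Or.inr (Or.inr (Or.inl h12)))
  have h : n 0 * n 1 * n 2 = 0 := by
    have h1 : 0 ≤ (n 0 * n 1) * (n 0 * n 2) := by nlinarith
    have h2 : ((n 0 * n 1) * (n 0 * n 2)) * (n 1 * n 2) ≤ 0 := by nlinarith
    have h3 : (n 0 * n 1 * n 2) ^ 2 = ((n 0 * n 1) * (n 0 * n 2)) * (n 1 * n 2) := by ring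
    have h4 := sq_nonneg (n 0 * n 1 * n 2)
    exact pow_eq_zero_iff (two_ne_zero) |>.1 (le_antisymm (h3 ▸ h2) h4)
  rcases mul_eq_zero.1 h with h | h
  · rcases mul_eq_zero.1 h with h | h
    · rw [h]
      exact good_of_zero
    · rw [h]
      rcases good_of_zero (t := t 1) (t' := t 0) (t'' := t 2) (n' := n 0) (n'' := n 2) with
        h | h | h
      · exact Or.inl h.symm
      · exact Or.inr (Or.inr h)
      · exact Or.inr (Or.inl h)
  · rw [h]
    rcases good_of_zero (t := t 2) (t' := t 0) (t'' := t 1) (n' := n 0) (n'' := n 1) with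
      h | h | h
    · exact Or.inr (Or.inl h.symm)
    · exact Or.inr (Or.inr h.symm)
    · exact Or.inl h

theorem realize_P (t n t' n' t'' n'' : ℝ) (h : Good t n t' n') :
    ∃ A : Matrix (Fin 6) (Fin 6) ℝ, Realizes A P ∧ A.charpoly =
      (X ^ 2 - C t * X + C n) * (X ^ 2 - C t' * X + C n') * (X ^ 2 - C t'' * X + C n'') := by
  obtain ⟨A, hA1, hA2⟩ := realize_M4 (t + t') (n + n' + t * t') (t * n' + t' * n) (n * n') h
  obtain ⟨B, hB1, hB2⟩ := realize_T2 t'' n''
  let e : Fin 4 ⊕ Fin 2 ≃ Fin 6 := finSumFinEquiv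
  refine ⟨Matrix.reindex e e (Matrix.fromBlocks A 0 0 B), ?_, ?_⟩
  · intro i j
    obtain ⟨i, rfl⟩ := e.surjective i
    obtain ⟨j, rfl⟩ := e.surjective j
    rw [Matrix.reindex_apply, Matrix.submatrix_apply, Equiv.symm_apply_apply,
      Equiv.symm_apply_apply]
    rcases i with i | i <;> rcases j with j | j
    · rw [Matrix.fromBlocks_apply₁₁, hA1 i j]
      fin_cases i <;> fin_cases j <;> rfl
    · rw [Matrix.fromBlocks_apply₁₂, Matrix.zero_apply, sign_zero]
      fin_cases i <;> fin_cases j <;> rfl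
    · rw [Matrix.fromBlocks_apply₂₁, Matrix.zero_apply, sign_zero]
      fin_cases i <;> fin_cases j <;> rfl
    · rw [Matrix.fromBlocks_apply₂₂, hB1 i j]
      fin_cases i <;> fin_cases j <;> rfl
  · rw [Matrix.charpoly_reindex, Matrix.charpoly_fromBlocks_zero₁₂, hA2, hB2]
    congr 1
    simp only [C_add, C_mul]
    ring

theorem P_arbitrary : SpectrallyArbitrary P := by
  intro p hp hd
  obtain ⟨t, n, h⟩ := exists_three p hp hd
  rcases good_pair t n with h1 | h1 | h1
  · obtain ⟨A, hA, hA'⟩ := realize_P _ _ _ _ (t 2) (n 2) h1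
    exact ⟨A, hA, by rw [hA', h]⟩
  · obtain ⟨A, hA, hA'⟩ := realize_P _ _ _ _ (t 1) (n 1) h1
    exact ⟨A, hA, by rw [hA', h]; ring⟩
  · obtain ⟨A, hA, hA'⟩ := realize_P _ _ _ _ (t 0) (n 0) h1
    exact ⟨A, hA, by rw [hA', h]; ring⟩

/-! ### `Q` is not spectrally arbitrary -/

/-- The key identity: a nilpotent matrix with the nonzero pattern of the `4 × 4` block of `Q`
does not have the signs of `Q`. -/
theorem no_nilpotent (a b c d e f z g h k : ℝ) (ha : 0 < a) (hc : 0 < c)
    (hf : 0 < f) (hz : 0 < z) (hg : 0 < g) (hh : 0 < h) (hk : 0 < k)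
    (h1 : a - e = 0) (h2 : b * d - a * e - c * z = 0)
    (h3 : c * g * h - f * g * k - z * (b * f) + z * c * e = 0)
    (h4 : g * (b * f * h + c * d * k - a * f * k - c * e * h) = 0) : False := by
  have he : e = a := by linarith
  subst he
  have h4' : b * f * h + c * d * k - e * f * k - c * e * h = 0 := by
    rcases mul_eq_zero.1 h4 with h | h
    · exact absurd h hg.ne'
    · exact h
  set u := b * f - e * c with hu
  have key : c ^ 2 * f * z * k * g + u ^ 2 * (g * h + e * z) = 0 := by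
    rw [hu]
    linear_combination (-c * f * k * g) * h2 + (b * f - e * c) * (-e) * h3 + (b * f * g) * h4'
  have : 0 < c ^ 2 * f * z * k * g + u ^ 2 * (g * h + e * z) := by positivity
  linarith

theorem coeff_zero (s1 s2 s3 s4 : ℝ)
    (h : (X ^ 4 - C s1 * X ^ 3 + C s2 * X ^ 2 - C s3 * X + C s4 : ℝ[X]) = X ^ 4) :
    s1 = 0 ∧ s2 = 0 ∧ s3 = 0 ∧ s4 = 0 := by
  have c0 := congrArg (fun p => p.coeff 0) h
  have c1 := congrArg (fun p => p.coeff 1) h
  have c2 := congrArg (fun p => p.coeff 2) h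
  have c3 := congrArg (fun p => p.coeff 3) h
  simp [coeff_X, coeff_C] at c0 c1 c2 c3
  exact ⟨c3, c2, c1, c0⟩

/-- The upper left `4 × 4` block of a realization of `Q` is not nilpotent. -/
theorem block_ne (a b c d e f z g h k : ℝ)
    (ha : 0 < a) (hc : c < 0) (hf : 0 < f) (hz : z < 0) (hg : g < 0) (hh : 0 < h) (hk : 0 < k) :
    (!![a, b, c, 0; d, e, f, 0; z, 0, 0, g; h, k, 0, 0] : Matrix (Fin 4) (Fin 4) ℝ).charpoly ≠
      X ^ 4 := by
  intro hX
  rw [charpoly4] at hX
  obtain ⟨h1, h2, h3, h4⟩ := coeff_zero _ _ _ _ hX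
  refine no_nilpotent a b (-c) (-d) (-e) f (-z) (-g) h k ha (by linarith) hf (by linarith)
    (by linarith) hh hk ?_ ?_ ?_ ?_
  · linarith
  · linarith
  · linarith
  · linarith

theorem Q_not_arbitrary : ¬ SpectrallyArbitrary Q := by
  intro h
  obtain ⟨A, hA, hA'⟩ := h (X ^ 6) (monic_X_pow 6) (natDegree_X_pow 6)
  have z : ∀ i j, Q i j = 0 → A i j = 0 := fun i j h => sign_eq_zero_iff.1 ((hA i j).trans h)
  let e : Fin 4 ⊕ Fin 2 ≃ Fin 6 := finSumFinEquiv
  set B : Matrix (Fin 4) (Fin 4) ℝ := !![A 0 0, A 0 1, A 0 2, 0; A 1 0, A 1 1, A 1 2, 0;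
    A 2 0, 0, 0, A 2 3; A 3 0, A 3 1, 0, 0] with hB
  set D : Matrix (Fin 2) (Fin 2) ℝ := !![A 4 4, A 4 5; A 5 4, A 5 5] with hD
  have hAB : A = Matrix.reindex e e (Matrix.fromBlocks B 0 0 D) := by
    ext i j
    obtain ⟨i, rfl⟩ := e.surjective i
    obtain ⟨j, rfl⟩ := e.surjective j
    rw [Matrix.reindex_apply, Matrix.submatrix_apply, Equiv.symm_apply_apply,
      Equiv.symm_apply_apply]
    rcases i with i | i <;> rcases j with j | j
    · rw [Matrix.fromBlocks_apply₁₁]
      fin_cases i <;> fin_cases j <;> first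
        | rfl
        | exact z _ _ rfl
    · rw [Matrix.fromBlocks_apply₁₂, Matrix.zero_apply]
      fin_cases i <;> fin_cases j <;> exact z _ _ rfl
    · rw [Matrix.fromBlocks_apply₂₁, Matrix.zero_apply]
      fin_cases i <;> fin_cases j <;> exact z _ _ rfl
    · rw [Matrix.fromBlocks_apply₂₂]
      fin_cases i <;> fin_cases j <;> rfl
  have hmul : B.charpoly * D.charpoly = X ^ 6 := by
    rw [← hA', hAB, Matrix.charpoly_reindex, Matrix.charpoly_fromBlocks_zero₁₂]
  have hX : B.charpoly = X ^ 4 := by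
    obtain ⟨i, -, hi⟩ := (dvd_prime_pow prime_X 6).1 ⟨_, hmul.symm⟩
    have h1 : B.charpoly = X ^ i := eq_of_monic_of_associated B.charpoly_monic (monic_X_pow i) hi
    have h2 : B.charpoly.natDegree = 4 := by
      rw [Matrix.charpoly_natDegree_eq_dim, Fintype.card_fin]
    rw [h1, natDegree_X_pow] at h2
    rw [h1, h2]
  exact block_ne _ _ _ _ _ _ _ _ _ _ (sign_eq_one_iff.1 (hA 0 0)) (sign_eq_neg_one_iff.1 (hA 0 2))
    (sign_eq_one_iff.1 (hA 1 2)) (sign_eq_neg_one_iff.1 (hA 2 0))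
    (sign_eq_neg_one_iff.1 (hA 2 3)) (sign_eq_one_iff.1 (hA 3 0))
    (sign_eq_one_iff.1 (hA 3 1)) hX

theorem agree : ∀ i j, P i j = 0 ∨ Q i j = P i j := by decide

theorem isSuperpattern : IsSuperpattern Q P := fun i j h => (agree i j).resolve_left h

/-- There is a spectrally arbitrary sign pattern with a superpattern that is not spectrally
arbitrary. -/
theorem result : ∃ (n : ℕ) (P Q : Matrix (Fin n) (Fin n) SignType),
    SpectrallyArbitrary P ∧ IsSuperpattern Q P ∧ ¬ SpectrallyArbitrary Q :=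
  ⟨6, P, Q, P_arbitrary, isSuperpattern, Q_not_arbitrary⟩

end Pool.Agent.Results.MP_557f7f_co.SpectralSuperpattern
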